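import Pool.Agent.H.MP_85e89d_gt.A

open Set Filter Topology MeasureTheory Pool.Agent.H.MP_85e89d_gt

namespace Pool.Agent.Results.MP_85e89d_gt.Plane

theorem result : ∃ F : Set (Arc 2), Covers F univ (1 / 2) ∧ ∀ x, ¬ NoEnd F x := by
  obtain ⟨θ, hθ⟩ := wild
  let γ : ℝ → ℝ → E 2 := fun c t => !₂[c, t]
  have e : ∀ c, γ c = fun t => !₂[c, 0] + t • !₂[0, 1] := fun c => by ext t i; fin_cases i <;> simp [γ]
  have cγ : ∀ c, ContDiff ℝ 1 (γ c) := fun c => by rw [e]; fun_prop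
  have iγ : ∀ c t d s, γ c t = γ d s → c = d ∧ t = s := fun c t d s h =>
    ⟨congrArg (· 0) h, congrArg (· 1) h⟩
  let A : ℝ × ℤ → Arc 2 := fun p => ⟨θ p.1 + p.2, θ p.1 + p.2 + 1, Ico (θ p.1 + p.2) (θ p.1 + p.2 + 1), γ p.1⟩
  refine ⟨range A, ⟨?_, ?_, eq_univ_of_forall fun x => ?_⟩, fun x ⟨N, hN, hx, h⟩ => ?_⟩
  · rintro _ ⟨⟨c, k⟩, rfl⟩
    refine good _ _ (lt_add_one _) Ioo_subset_Ico_self Ico_subset_Icc_self (cγ c)
      (fun s _ t _ h => (iγ _ _ _ _ h).2) (fun t h => ?_) ⟨θ c + k, ⟨le_rfl, lt_add_one _⟩,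
      θ c + k + 1 / 2, ⟨by simp, by linarith⟩, ?_⟩
    · have : deriv (γ c) t = !₂[0, 1] := by
        rw [e]; simpa using (((hasDerivAt_id t).smul_const (!₂[0, 1] : E 2)).const_add !₂[c, 0]).deriv
      simpa using congrArg (· 1) (this.symm.trans h)
    · have := PiLp.dist_apply_le (γ c (θ c + k)) (γ c (θ c + k + 1 / 2)) 1
      simpa [γ, Real.dist_eq] using this
  · rintro _ ⟨⟨c, k⟩, rfl⟩ _ ⟨⟨d, l⟩, rfl⟩ h
    refine disjoint_left.2 ?_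
    rintro _ ⟨s, hs, rfl⟩ ⟨t, ht, k'⟩
    obtain ⟨rfl, rfl⟩ := iγ _ _ _ _ k'
    have a : (k : ℝ) < l + 1 := by linarith [hs.1, ht.2]
    have b : (l : ℝ) < k + 1 := by linarith [hs.2, ht.1]
    obtain rfl : k = l := by
      have a : k < l + 1 := by exact_mod_cast a
      have b : l < k + 1 := by exact_mod_cast b
      omega
    exact h rfl
  · refine mem_biUnion ⟨(x 0, ⌊x 1 - θ (x 0)⌋), rfl⟩ ⟨x 1, ⟨?_, ?_⟩, ?_⟩
    · linarith [Int.floor_le (x 1 - θ (x 0))]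
    · linarith [Int.lt_floor_add_one (x 1 - θ (x 0))]
    · ext i; fin_cases i <;> rfl
  · obtain ⟨c, hc⟩ := hθ ((fun p : ℝ × ℝ => γ p.1 p.2) ⁻¹' N) (hN.preimage (by unfold γ; fun_prop))
      ⟨(x 0, x 1), by rwa [mem_preimage, show γ (x 0) (x 1) = x by ext i; fin_cases i <;> rfl]⟩
    refine h _ ⟨(c, 0), rfl⟩ _ hc (.inl ?_)
    simpa [A] using ((cγ c).continuous.tendsto (θ c)).mono_left nhdsWithin_le_nhds

end Pool.Agent.Results.MP_85e89d_gt.Plane
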