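import Pool.Agent.H.MP_85e89d_gt.A

open Set Filter Topology MeasureTheory Pool.Agent.H.MP_85e89d_gt Real

namespace Pool.Agent.Results.MP_85e89d_gt.Sphere

noncomputable def γ (w : ℝ × ℝ) (t : ℝ) : E 3 := !₂[cos t * w.1, cos t * w.2, sin t]

lemma cγ (w : ℝ × ℝ) : ContDiff ℝ 1 (γ w) := by
  rw [show γ w = fun t => cos t • !₂[w.1, w.2, 0] + sin t • !₂[0, 0, 1] by
    ext t i; fin_cases i <;> simp [γ]]
  fun_prop

lemma dγ (w : ℝ × ℝ) (hw : w.1 ^ 2 + w.2 ^ 2 = 1) (t : ℝ) : deriv (γ w) t ≠ 0 := fun h => by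
  rw [show γ w = fun t => cos t • !₂[w.1, w.2, 0] + sin t • !₂[0, 0, 1] by
    ext t i; fin_cases i <;> simp [γ]] at h
  have := (((hasDerivAt_cos t).smul_const (!₂[w.1, w.2, 0] : E 3)).add
    ((hasDerivAt_sin t).smul_const (!₂[0, 0, 1] : E 3))).deriv.symm.trans h
  have a : -sin t * w.1 = 0 := by simpa using congrArg (· 0) this
  have b : -sin t * w.2 = 0 := by simpa using congrArg (· 1) this
  have c : cos t = 0 := by simpa using congrArg (· 2) this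
  have := sin_sq_add_cos_sq t
  rw [c] at this
  exact one_ne_zero (α := ℝ) (by
    linear_combination (-sin t * w.1) * a + (-sin t * w.2) * b - sin t ^ 2 * hw - this)

lemma i1 {w v : ℝ × ℝ} {s t : ℝ} (hs : s ∈ Icc (-(π / 2)) (π / 2)) (ht : t ∈ Icc (-(π / 2)) (π / 2))
    (h : γ w s = γ v t) : s = t := injOn_sin hs ht (congrArg (· 2) h)

lemma i2 {w v : ℝ × ℝ} {s : ℝ} (hs : s ∈ Ioo (-(π / 2)) (π / 2)) (h : γ w s = γ v s) : w = v :=
  Prod.ext (mul_left_cancel₀ (cos_pos_of_mem_Ioo hs).ne' (congrArg (· 0) h))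
    (mul_left_cancel₀ (cos_pos_of_mem_Ioo hs).ne' (congrArg (· 1) h))

lemma pol (p : E 3) (hp : ‖p‖ = 1) : p 0 ^ 2 + p 1 ^ 2 = cos (arcsin (p 2)) ^ 2 ∧
    sin (arcsin (p 2)) = p 2 := by
  have := EuclideanSpace.real_norm_sq_eq p
  rw [hp, Fin.sum_univ_three] at this
  have k := abs_le.1 ((sq_le_one_iff_abs_le_one (p 2)).1 (by nlinarith))
  refine ⟨?_, sin_arcsin k.1 k.2⟩
  rw [cos_sq', sin_arcsin k.1 k.2]; linarith

lemma pol' (p : E 3) (hp : ‖p‖ = 1) (h : 0 < cos (arcsin (p 2))) :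
    (p 0 / cos (arcsin (p 2))) ^ 2 + (p 1 / cos (arcsin (p 2))) ^ 2 = 1 ∧
    γ (p 0 / cos (arcsin (p 2)), p 1 / cos (arcsin (p 2))) (arcsin (p 2)) = p := by
  refine ⟨by field_simp; exact (pol p hp).1, ?_⟩
  ext i; fin_cases i
  · exact mul_div_cancel₀ _ h.ne'
  · exact mul_div_cancel₀ _ h.ne'
  · exact (pol p hp).2

theorem result : ∃ δ > 0, ∃ F : Set (Arc 3), Covers F (Metric.sphere 0 1) δ ∧
    0 < (volume : Measure (E 3)).toSphere {x | ¬ NoEnd F x} := by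
  classical
  obtain ⟨θ, hθ⟩ := wild
  have p3 := pi_gt_d2
  obtain ⟨ϑ, h1, h2⟩ : ∃ ϑ : ℝ × ℝ → ℝ, (∀ w, -(3 / 4) ≤ ϑ w ∧ ϑ w ≤ 3 / 4) ∧
      ∀ w, |θ w.1| < 3 / 4 → ϑ w = θ w.1 :=
    ⟨fun w => if |θ w.1| < 3 / 4 then θ w.1 else 0, fun w => by
      beta_reduce
      split_ifs with h
      · exact ⟨(abs_lt.1 h).1.le, (abs_lt.1 h).2.le⟩
      · norm_num, fun w h => if_pos h⟩
  let A0 : Arc 3 := ⟨-(π / 2), π / 2, Icc (-(π / 2)) (π / 2), γ (0, -1)⟩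
  let lo : ℝ × ℝ → Arc 3 := fun w => ⟨-(π / 2), ϑ w, Ioo (-(π / 2)) (ϑ w), γ w⟩
  let hi : ℝ × ℝ → Arc 3 := fun w => ⟨ϑ w, π / 2, Ico (ϑ w) (π / 2), γ w⟩
  let C : Set (ℝ × ℝ) := {w | w.1 ^ 2 + w.2 ^ 2 = 1 ∧ w ≠ (0, -1)}
  have sl : ∀ w, Ioo (-(π / 2)) (ϑ w) ⊆ Ioo (-(π / 2)) (π / 2) := fun w =>
    Ioo_subset_Ioo_right (by linarith [h1 w])
  have sh : ∀ w, Ico (ϑ w) (π / 2) ⊆ Ioo (-(π / 2)) (π / 2) := fun w =>
    Ico_subset_Ioo_left (by linarith [h1 w])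
  have s0 : Ioo (-(π / 2)) (π / 2) ⊆ Icc (-(π / 2)) (π / 2) := Ioo_subset_Icc_self
  have ds : ∀ w s t, sin s - sin t ≤ dist (γ w s) (γ w t) := fun w s t =>
    (le_abs_self _).trans (PiLp.dist_apply_le (γ w s) (γ w t) 2)
  refine ⟨sin (3 / 2) - sin (4 / 5), sub_pos.2 (sin_lt_sin_of_lt_of_le_pi_div_two (by linarith)
    (by linarith) (by norm_num)), insert A0 (lo '' C ∪ hi '' C), ⟨?_, ?_, Subset.antisymm ?_
    fun x hx => ?_⟩, ?_⟩
  · rintro _ (rfl | ⟨w, hw, rfl⟩ | ⟨w, hw, rfl⟩)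
    · exact good _ _ (by simp only [A0]; linarith) s0 Subset.rfl (cγ _) (fun s hs t ht => i1 hs ht)
        (dγ _ (by simp)) ⟨_, ⟨by linarith, by linarith⟩, _, ⟨by linarith, by linarith⟩, ds _ _ _⟩
    · have := h1 w
      have k : Icc (-(π / 2)) (ϑ w) ⊆ Icc (-(π / 2)) (π / 2) := Icc_subset_Icc_right (by linarith)
      exact good _ _ (by simp only [lo]; linarith) Subset.rfl Ioo_subset_Icc_self (cγ _)
        (fun s hs t ht => i1 (k hs) (k ht)) (dγ _ hw.1) ⟨-(4 / 5), ⟨by linarith, by linarith⟩,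
        -(3 / 2), ⟨by linarith, by linarith⟩, le_trans (by simp only [sin_neg]; linarith) (ds _ _ _)⟩
    · have := h1 w
      have k : Icc (ϑ w) (π / 2) ⊆ Icc (-(π / 2)) (π / 2) := Icc_subset_Icc_left (by linarith)
      exact good _ _ (by simp only [hi]; linarith) Ioo_subset_Ico_self Ico_subset_Icc_self (cγ _)
        (fun s hs t ht => i1 (k hs) (k ht)) (dγ _ hw.1)
        ⟨_, ⟨by linarith, by linarith⟩, _, ⟨by linarith, by linarith⟩, ds _ _ _⟩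
  · rintro _ (rfl | ⟨w, hw, rfl⟩ | ⟨w, hw, rfl⟩) _ (rfl | ⟨v, hv, rfl⟩ | ⟨v, hv, rfl⟩) h <;>
      refine disjoint_left.2 ?_ <;> rintro _ ⟨s, hs, rfl⟩ ⟨t, ht, k⟩
    · exact h rfl
    · obtain rfl := i1 (s0 (sl _ ht)) hs k
      exact hv.2 (i2 (sl _ ht) k)
    · obtain rfl := i1 (s0 (sh _ ht)) hs k
      exact hv.2 (i2 (sh _ ht) k)
    · obtain rfl := i1 ht (s0 (sl _ hs)) k
      exact hw.2 (i2 (sl _ hs) k).symm
    · obtain rfl := i1 (s0 (sl _ ht)) (s0 (sl _ hs)) k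
      exact h (by rw [i2 (sl _ hs) k])
    · obtain rfl := i1 (s0 (sh _ ht)) (s0 (sl _ hs)) k
      obtain rfl := i2 (sl _ hs) k
      exact hs.2.not_ge ht.1
    · obtain rfl := i1 ht (s0 (sh _ hs)) k
      exact hw.2 (i2 (sh _ hs) k).symm
    · obtain rfl := i1 (s0 (sl _ ht)) (s0 (sh _ hs)) k
      obtain rfl := i2 (sh _ hs) k
      exact ht.2.not_ge hs.1
    · obtain rfl := i1 (s0 (sh _ ht)) (s0 (sh _ hs)) k
      exact h (by rw [i2 (sh _ hs) k])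
  · have n : ∀ w : ℝ × ℝ, w.1 ^ 2 + w.2 ^ 2 = 1 → ∀ t, γ w t ∈ Metric.sphere (0 : E 3) 1 := fun w hw t => by
      rw [mem_sphere_zero_iff_norm, ← sq_eq_sq₀ (norm_nonneg _) zero_le_one,
        EuclideanSpace.real_norm_sq_eq, Fin.sum_univ_three]
      simp only [γ, Matrix.cons_val]
      linear_combination cos t ^ 2 * hw + sin_sq_add_cos_sq t
    refine iUnion₂_subset ?_
    rintro _ (rfl | ⟨w, hw, rfl⟩ | ⟨w, hw, rfl⟩) _ ⟨t, -, rfl⟩
    exacts [n _ (by simp) t, n _ hw.1 t, n _ hw.1 t]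
  · rw [mem_sphere_zero_iff_norm] at hx
    have m := arcsin_mem_Icc (x 2)
    rcases (cos_nonneg_of_mem_Icc m).eq_or_lt with c | c
    · obtain ⟨a, b⟩ := pol x hx
      rw [← c] at a
      refine mem_biUnion (mem_insert _ _) ⟨_, m, ?_⟩
      ext i; fin_cases i
      · simp only [A0, γ, ← c]; simp; nlinarith
      · simp only [A0, γ, ← c]; simp; nlinarith
      · exact b
    obtain ⟨a, b⟩ := pol' x hx c
    have m2 : arcsin (x 2) ∈ Ioo (-(π / 2)) (π / 2) :=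
      ⟨m.1.lt_of_ne fun h => by simp [← h] at c, m.2.lt_of_ne fun h => by simp [h] at c⟩
    obtain ⟨w, hw, b⟩ : ∃ w : ℝ × ℝ, w.1 ^ 2 + w.2 ^ 2 = 1 ∧ γ w (arcsin (x 2)) = x := ⟨(_, _), a, b⟩
    by_cases k : w = (0, -1)
    · exact mem_biUnion (mem_insert _ _) ⟨_, m, by rwa [k] at b⟩
    rcases lt_or_ge (arcsin (x 2)) (ϑ w) with l | l
    · exact mem_biUnion (.inr (.inl ⟨w, ⟨hw, k⟩, rfl⟩)) ⟨_, ⟨m2.1, l⟩, b⟩
    · exact mem_biUnion (.inr (.inr ⟨w, ⟨hw, k⟩, rfl⟩)) ⟨_, ⟨l, m2.2⟩, b⟩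
  · have o : IsOpen {x : Metric.sphere (0 : E 3) 1 | |arcsin (x.1 2)| < 3 / 4 ∧ 0 < x.1 1} :=
      (isOpen_lt (continuous_arcsin.comp (f := fun x : Metric.sphere (0 : E 3) 1 => x.1 2)
        (by fun_prop)).abs continuous_const).inter
        (isOpen_lt continuous_const (g := fun x : Metric.sphere (0 : E 3) 1 => x.1 1) (by fun_prop))
    refine lt_of_lt_of_le (o.measure_pos _
      ⟨⟨!₂[0, 1, 0], by simp [EuclideanSpace.norm_eq, Fin.sum_univ_three]⟩, by simp⟩)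
      (measure_mono ?_)
    rintro ⟨x, hx⟩ ⟨k1, k2⟩ ⟨N, hN, xN, h⟩
    rw [mem_sphere_zero_iff_norm] at hx
    have c : 0 < cos (arcsin (x 2)) := cos_pos_of_mem_Ioo ⟨by linarith [(abs_lt.1 k1).1],
      by linarith [(abs_lt.1 k1).2]⟩
    obtain ⟨a, b⟩ := pol' x hx c
    have d : 0 < x 1 / cos (arcsin (x 2)) := div_pos k2 c
    obtain ⟨s, hs, e1, e2⟩ := hθ ((fun p : ℝ × ℝ => γ (p.1, √(1 - p.1 ^ 2)) p.2) ⁻¹' N ∩
      ({p | p.1 ^ 2 < 1} ∩ {p | |p.2| < 3 / 4})) ((hN.preimage (by unfold γ; fun_prop)).inter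
      ((isOpen_lt (by fun_prop) continuous_const).inter (isOpen_lt (by fun_prop) continuous_const)))
      ⟨(x 0 / cos (arcsin (x 2)), arcsin (x 2)), by
        rwa [mem_preimage, ← a, add_sub_cancel_left, sqrt_sq d.le, b], by
        simp only [mem_setOf_eq]; nlinarith, k1⟩
    refine h (hi (s, √(1 - s ^ 2))) (.inr (.inr ⟨_, ⟨?_, fun k => ?_⟩, rfl⟩)) _ hs (.inl ?_)
    · simp only; rw [sq_sqrt (sub_nonneg.2 e1.le)]; ring
    · linarith [sqrt_nonneg (1 - s ^ 2), (Prod.ext_iff.1 k).2]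
    · simp only [hi, h2 (s, √(1 - s ^ 2)) e2]
      exact ((cγ _).continuous.tendsto _).mono_left nhdsWithin_le_nhds

end Pool.Agent.Results.MP_85e89d_gt.Sphere
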